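import Pool.Agent.Helper95.HH.GOk
import Pool.Agent.Helper71.UT.SegEx

/-!
# HH/ExB: the data `HD` of a graph cut into segments (for `Helper95/HH/Exist`, MP_0dbcb7_co)
-/

set_option autoImplicit false

open Set
open Pool.Agent.Helper83.OP Pool.Agent.Helper93.HH Pool.Agent.Helper95.UP Pool.Agent.Helper71.UT

namespace Pool.Agent.Helper7.HH

variable {V : Type} {G : SimpleGraph V} {Q0 : Type}

/-- the union of the segments with no end in `U` -/
def nG (Sg : Seg G Q0) (U : Set V) : SimpleGraph V where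
  Adj u v := ∃ q, Sg.a q ∉ U ∧ Sg.b q ∉ U ∧ s(u, v) ∈ (Sg.T q).edges
  symm := ⟨fun u v ⟨q, h1, h2, h3⟩ => ⟨q, h1, h2, by rw [Sym2.eq_swap]; exact h3⟩⟩
  loopless := ⟨fun u ⟨q, _, _, h⟩ => ((Sg.T q).adj_of_mem_edges h).ne rfl⟩

/-- the segments with exactly one end in `U` -/
def PT (Sg : Seg G Q0) (U : Set V) : Type :=
  {q // Sg.a q ∉ U ∧ Sg.b q ∈ U} ⊕ {q // Sg.a q ∈ U ∧ Sg.b q ∉ U}

/-- the segments with both ends in `U` -/
def QT (Sg : Seg G Q0) (U : Set V) : Type := {q // Sg.a q ∈ U ∧ Sg.b q ∈ U}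

instance (Sg : Seg G Q0) (U : Set V) [Finite Q0] : Finite (PT Sg U) := by
  unfold PT; infer_instance

instance (Sg : Seg G Q0) (U : Set V) [Finite Q0] : Finite (QT Sg U) := by
  unfold QT; infer_instance

/-- the segment of a pin -/
def bs {Sg : Seg G Q0} {U : Set V} : PT Sg U → Q0
  | Sum.inl q => q.1
  | Sum.inr q => q.1

/-- the foot of a pin -/
def px {Sg : Seg G Q0} {U : Set V} : PT Sg U → V
  | Sum.inl q => Sg.a q.1
  | Sum.inr q => Sg.b q.1

/-- the hub of a pin -/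
def ph {Sg : Seg G Q0} {U : Set V} : PT Sg U → V
  | Sum.inl q => Sg.b q.1
  | Sum.inr q => Sg.a q.1

/-- the path of a pin -/
def pw {Sg : Seg G Q0} {U : Set V} : ∀ p : PT Sg U, G.Walk (px p) (ph p)
  | Sum.inl q => Sg.T q.1
  | Sum.inr q => (Sg.T q.1).reverse

/-- the data -/
def hd (Sg : Seg G Q0) (U : Set V) (r L Kh : ℕ) : HD V (PT Sg U) (QT Sg U) where
  G := G
  N := nG Sg U
  U := U
  r := r
  L := L
  Kh := Kh
  x := px
  hub := ph
  w := pw
  ha := fun q => Sg.a q.1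
  hb := fun q => Sg.b q.1
  wq := fun q => Sg.T q.1

variable {Sg : Seg G Q0} {U : Set V}

theorem bs_inj {p p' : PT Sg U} (h : bs p = bs p') : p = p' := by
  rcases p with ⟨q, h1, h2⟩ | ⟨q, h1, h2⟩ <;> rcases p' with ⟨q', h1', h2'⟩ | ⟨q', h1', h2'⟩ <;>
    simp only [bs] at h <;> subst h
  · rfl
  · exact absurd h1' h1
  · exact absurd h1 h1'
  · rfl

theorem px_U (p : PT Sg U) : px p ∉ U := by
  rcases p with ⟨q, h1, h2⟩ | ⟨q, h1, h2⟩
  · exact h1
  · exact h2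

theorem ph_U (p : PT Sg U) : ph p ∈ U := by
  rcases p with ⟨q, h1, h2⟩ | ⟨q, h1, h2⟩
  · exact h2
  · exact h1

theorem px_ne_ph (p : PT Sg U) : px p ≠ ph p := fun h => px_U p (h ▸ ph_U p)

theorem pw_path (p : PT Sg U) : (pw p).IsPath := by
  rcases p with ⟨q, h1, h2⟩ | ⟨q, h1, h2⟩
  · exact Sg.path q
  · exact (Sg.path q).reverse

theorem pw_edges (p : PT Sg U) (f : Sym2 V) : f ∈ (pw p).edges ↔ f ∈ (Sg.T (bs p)).edges := by
  rcases p with ⟨q, h1, h2⟩ | ⟨q, h1, h2⟩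
  · exact Iff.rfl
  · change f ∈ ((Sg.T q).reverse : G.Walk (Sg.b q) (Sg.a q)).edges ↔ f ∈ (Sg.T q).edges
    rw [SimpleGraph.Walk.edges_reverse, List.mem_reverse]

theorem pw_supp (p : PT Sg U) (z : V) : z ∈ (pw p).support ↔ z ∈ (Sg.T (bs p)).support := by
  rcases p with ⟨q, h1, h2⟩ | ⟨q, h1, h2⟩
  · exact Iff.rfl
  · change z ∈ ((Sg.T q).reverse : G.Walk (Sg.b q) (Sg.a q)).support ↔ z ∈ (Sg.T q).support
    rw [SimpleGraph.Walk.support_reverse, List.mem_reverse]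

theorem ends_iff (p : PT Sg U) (z : V) :
    (z = Sg.a (bs p) ∨ z = Sg.b (bs p)) ↔ (z = px p ∨ z = ph p) := by
  rcases p with ⟨q, h1, h2⟩ | ⟨q, h1, h2⟩
  · exact Iff.rfl
  · exact or_comm

theorem pw_inner (p : PT Sg U) {z : V} (hz : z ∈ (pw p).support) (h1 : z ≠ px p)
    (h2 : z ≠ ph p) : deg G z = 2 := by
  have hn : ¬ (z = Sg.a (bs p) ∨ z = Sg.b (bs p)) := by
    rw [ends_iff]; push Not; exact ⟨h1, h2⟩
  push Not at hn
  exact Sg.inner (bs p) z ((pw_supp p z).mp hz) hn.1 hn.2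

/-- the hypotheses on the ends of the segments -/
structure Hy (Sg : Seg G Q0) (U : Set V) : Prop where
  ha : ∀ q, 3 ≤ deg G (Sg.a q)
  hb : ∀ q, 3 ≤ deg G (Sg.b q)
  hU : ∀ u ∈ U, 3 ≤ deg G u

theorem px_deg (H : Hy Sg U) (p : PT Sg U) : 3 ≤ deg G (px p) := by
  rcases p with ⟨q, h1, h2⟩ | ⟨q, h1, h2⟩
  · exact H.ha q
  · exact H.hb q

theorem nG_notU (H : Hy Sg U) {u v : V} (h : (nG Sg U).Adj u v) : u ∉ U := by
  obtain ⟨q, h1, h2, h3⟩ := h
  have hs := (Sg.T q).fst_mem_support_of_mem_edges h3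
  intro hu
  by_cases ha : u = Sg.a q
  · exact h1 (ha ▸ hu)
  by_cases hb : u = Sg.b q
  · exact h2 (hb ▸ hu)
  have := Sg.inner q u hs ha hb
  have := H.hU u hu
  omega

theorem nG_le : nG Sg U ≤ G := by
  intro u v ⟨q, _, _, h⟩
  exact (Sg.T q).adj_of_mem_edges h

/-- a vertex of `N` or a foot -/
def VNs (Sg : Seg G Q0) (U : Set V) (v : V) : Prop :=
  (∃ w, (nG Sg U).Adj v w) ∨ ∃ p : PT Sg U, px p = v

theorem VNs_notU (H : Hy Sg U) {v : V} (h : VNs Sg U v) : v ∉ U := by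
  rcases h with ⟨w, hw⟩ | ⟨p, rfl⟩
  · exact nG_notU H hw
  · exact px_U p

theorem pw_VN [Finite V] (H : Hy Sg U) (p : PT Sg U) {z : V} (hz : z ∈ (pw p).support)
    (hne : z ≠ px p) : ¬ VNs Sg U z := by
  intro hv
  have hzU := VNs_notU H hv
  have hzh : z ≠ ph p := fun h => hzU (h ▸ ph_U p)
  rcases hv with ⟨w, q, h1, h2, h3⟩ | ⟨p', rfl⟩
  · have hs := (Sg.T q).fst_mem_support_of_mem_edges h3
    have hqp : bs p ≠ q := by
      rintro rfl
      have h4 := ph_U p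
      rcases (ends_iff p (ph p)).mpr (Or.inr rfl) with h | h
      · exact h1 (h ▸ h4)
      · exact h2 (h ▸ h4)
    have := (ends_iff p z).mp (common_end Sg hqp ((pw_supp p z).mp hz) hs)
    rcases this with h | h
    · exact hne h
    · exact hzh h
  · have h1 := pw_inner p hz hne hzh
    have h2 := px_deg H p'
    omega

theorem pw_disj [Finite V] {p p' : PT Sg U} {z : V} (hz : z ∈ (pw p).support)
    (hz' : z ∈ (pw p').support) (h1 : z ≠ px p) (h2 : z ≠ ph p) : p = p' := by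
  by_contra hn
  have hb : bs p ≠ bs p' := fun h => hn (bs_inj h)
  rcases (ends_iff p z).mp (common_end Sg hb ((pw_supp p z).mp hz) ((pw_supp p' z).mp hz')) with
    h | h
  · exact h1 h
  · exact h2 h

theorem wq_inner (q : QT Sg U) {z : V} (hz : z ∈ (Sg.T q.1).support) (hzU : z ∉ U) :
    deg G z = 2 :=
  Sg.inner q.1 z hz (fun h => hzU (h ▸ q.2.1)) (fun h => hzU (h ▸ q.2.2))

theorem wq_VN [Finite V] (H : Hy Sg U) (q : QT Sg U) {z : V} (hz : z ∈ (Sg.T q.1).support) :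
    ¬ VNs Sg U z := by
  intro hv
  have hzU := VNs_notU H hv
  rcases hv with ⟨w, q', h1, h2, h3⟩ | ⟨p, rfl⟩
  · have hs := (Sg.T q').fst_mem_support_of_mem_edges h3
    have hqq : q.1 ≠ q' := by
      rintro rfl
      exact h1 q.2.1
    rcases common_end Sg hqq hz hs with h | h
    · exact hzU (h ▸ q.2.1)
    · exact hzU (h ▸ q.2.2)
  · have h1 := wq_inner q hz hzU
    have h2 := px_deg H p
    omega

theorem wq_pw [Finite V] (q : QT Sg U) (p : PT Sg U) {z : V} (hz : z ∈ (Sg.T q.1).support)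
    (hz' : z ∈ (pw p).support) : z = ph p := by
  have hqp : q.1 ≠ bs p := by
    intro h
    have h4 := px_U p
    rcases (ends_iff p (px p)).mpr (Or.inl rfl) with h' | h'
    · apply h4; rw [h', ← h]; exact q.2.1
    · apply h4; rw [h', ← h]; exact q.2.2
  have hzU : z ∈ U := by
    rcases common_end Sg hqp hz ((pw_supp p z).mp hz') with h | h
    · exact h ▸ q.2.1
    · exact h ▸ q.2.2
  rcases (ends_iff p z).mp (common_end Sg hqp.symm ((pw_supp p z).mp hz') hz) with h | h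
  · exact absurd (h ▸ hzU) (px_U p)
  · exact h

theorem wq_disj [Finite V] {q q' : QT Sg U} {z : V} (hz : z ∈ (Sg.T q.1).support)
    (hz' : z ∈ (Sg.T q'.1).support) (hzU : z ∉ U) : q = q' := by
  by_contra hn
  have hqq : q.1 ≠ q'.1 := fun h => hn (Subtype.ext h)
  rcases common_end Sg hqq hz hz' with h | h
  · exact hzU (h ▸ q.2.1)
  · exact hzU (h ▸ q.2.2)

theorem cover (u v : V) (h : G.Adj u v) : (nG Sg U).Adj u v ∨
    (∃ p : PT Sg U, s(u, v) ∈ (pw p).edges) ∨ ∃ q : QT Sg U, s(u, v) ∈ (Sg.T q.1).edges := by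
  obtain ⟨q, hq⟩ := Sg.cover s(u, v) h
  by_cases ha : Sg.a q ∈ U
  · by_cases hb : Sg.b q ∈ U
    · exact Or.inr (Or.inr ⟨⟨q, ha, hb⟩, hq⟩)
    · exact Or.inr (Or.inl ⟨Sum.inr ⟨q, ha, hb⟩, (pw_edges _ _).mpr hq⟩)
  · by_cases hb : Sg.b q ∈ U
    · exact Or.inr (Or.inl ⟨Sum.inl ⟨q, ha, hb⟩, (pw_edges _ _).mpr hq⟩)
    · exact Or.inl ⟨q, ha, hb, hq⟩

theorem pw_pos (p : PT Sg U) : 0 < (pw p).length := by
  rcases Nat.eq_zero_or_pos (pw p).length with h | h
  · exact absurd (SimpleGraph.Walk.eq_of_length_eq_zero h) (px_ne_ph p)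
  · exact h

/-- the degree of a vertex of `N` -/
theorem dg_eq [Finite V] (H : Hy Sg U) {v : V} (hv : VNs Sg U v) :
    deg G v = deg (nG Sg U) v + {p : PT Sg U | px p = v}.ncard := by
  have hmem : ∀ p : PT Sg U, s(px p, (pw p).getVert 1) ∈ (pw p).edges := by
    intro p
    have := mem_edges_getVert (pw p) (i := 0) (pw_pos p)
    rw [SimpleGraph.Walk.getVert_zero] at this
    exact this
  have hsplit : G.neighborSet v = (nG Sg U).neighborSet v ∪
      (fun p : PT Sg U => (pw p).getVert 1) '' {p : PT Sg U | px p = v} := by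
    ext w
    constructor
    · intro hw
      rcases cover (Sg := Sg) (U := U) v w hw with h | ⟨p, hp⟩ | ⟨q, hq⟩
      · exact Or.inl h
      · right
        have hpv : px p = v := by
          by_contra hn
          exact pw_VN H p ((pw p).fst_mem_support_of_mem_edges hp) (fun h => hn h.symm) hv
        refine ⟨p, hpv, ?_⟩
        subst hpv
        have := (pw_path p).eq_snd_of_mem_edges hp
        rw [this]
      · exact absurd hv (wq_VN H q ((Sg.T q.1).fst_mem_support_of_mem_edges hq))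
    · rintro (h | ⟨p, hp, rfl⟩)
      · exact nG_le h
      · have hp' : px p = v := hp
        subst hp'
        exact (pw p).adj_of_mem_edges (hmem p)
  have hdis : Disjoint ((nG Sg U).neighborSet v)
      ((fun p : PT Sg U => (pw p).getVert 1) '' {p : PT Sg U | px p = v}) := by
    rw [Set.disjoint_left]
    rintro w ⟨q, h1, h2, h3⟩ ⟨p, hp, rfl⟩
    have hp' : px p = v := hp
    subst hp'
    have h4 := (pw_edges p _).mp (hmem p)
    have h5 := Sg.disj _ _ _ h3 h4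
    subst h5
    have h6 := ph_U p
    rcases (ends_iff p (ph p)).mpr (Or.inr rfl) with h | h
    · exact h1 (h ▸ h6)
    · exact h2 (h ▸ h6)
  have hinj : Set.InjOn (fun p : PT Sg U => (pw p).getVert 1) {p : PT Sg U | px p = v} := by
    intro p hp p' hp' he
    have hp1 : px p = v := hp
    have hp1' : px p' = v := hp'
    apply bs_inj
    have e1 := (pw_edges p _).mp (hmem p)
    have e2 := (pw_edges p' _).mp (hmem p')
    have he' : (pw p).getVert 1 = (pw p').getVert 1 := he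
    have e3 : s(px p, (pw p).getVert 1) = s(px p', (pw p').getVert 1) :=
      (congrArg (fun t => s(t, (pw p).getVert 1)) (hp1.trans hp1'.symm)).trans
        (congrArg (fun t => s(px p', t)) he')
    rw [e3] at e1
    exact Sg.disj _ _ _ e1 e2
  unfold deg
  rw [hsplit, Set.ncard_union_eq hdis (Set.toFinite _) (Set.toFinite _), Set.ncard_image_of_injOn hinj]

/-- counting the segments at a hub -/
theorem hub_count [Finite Q0] {a : V} (ha : a ∈ U) :
    {q | Sg.a q = a}.ncard + {q | Sg.b q = a}.ncard =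
    {p : PT Sg U | ph p = a}.ncard + {q : QT Sg U | Sg.a q.1 = a}.ncard +
      {q : QT Sg U | Sg.b q.1 = a}.ncard := by
  have e1 : {q | Sg.a q = a} = {q | Sg.a q = a ∧ Sg.b q ∉ U} ∪ {q | Sg.a q = a ∧ Sg.b q ∈ U} := by
    ext q; simp only [mem_setOf_eq, mem_union]; tauto
  have e2 : {q | Sg.b q = a} = {q | Sg.b q = a ∧ Sg.a q ∉ U} ∪ {q | Sg.b q = a ∧ Sg.a q ∈ U} := by
    ext q; simp only [mem_setOf_eq, mem_union]; tauto
  have d1 : Disjoint {q | Sg.a q = a ∧ Sg.b q ∉ U} {q | Sg.a q = a ∧ Sg.b q ∈ U} := by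
    rw [Set.disjoint_left]; rintro q ⟨_, h⟩ ⟨_, h'⟩; exact h h'
  have d2 : Disjoint {q | Sg.b q = a ∧ Sg.a q ∉ U} {q | Sg.b q = a ∧ Sg.a q ∈ U} := by
    rw [Set.disjoint_left]; rintro q ⟨_, h⟩ ⟨_, h'⟩; exact h h'
  have e3 : bs '' {p : PT Sg U | ph p = a} =
      {q | Sg.a q = a ∧ Sg.b q ∉ U} ∪ {q | Sg.b q = a ∧ Sg.a q ∉ U} := by
    ext q
    constructor
    · rintro ⟨p, hp, rfl⟩
      rcases p with ⟨q, h1, h2⟩ | ⟨q, h1, h2⟩
      · exact Or.inr ⟨hp, h1⟩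
      · exact Or.inl ⟨hp, h2⟩
    · rintro (⟨h1, h2⟩ | ⟨h1, h2⟩)
      · exact ⟨Sum.inr ⟨q, h1 ▸ ha, h2⟩, h1, rfl⟩
      · exact ⟨Sum.inl ⟨q, h2, h1 ▸ ha⟩, h1, rfl⟩
  have d3 : Disjoint {q | Sg.a q = a ∧ Sg.b q ∉ U} {q | Sg.b q = a ∧ Sg.a q ∉ U} := by
    rw [Set.disjoint_left]; rintro q ⟨_, h⟩ ⟨h', _⟩; exact h (h' ▸ ha)
  have e4 : (fun q : QT Sg U => q.1) '' {q : QT Sg U | Sg.a q.1 = a} =
      {q | Sg.a q = a ∧ Sg.b q ∈ U} := by
    ext q
    constructor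
    · rintro ⟨q, hq, rfl⟩
      exact ⟨hq, q.2.2⟩
    · rintro ⟨h1, h2⟩
      exact ⟨⟨q, h1 ▸ ha, h2⟩, h1, rfl⟩
  have e5 : (fun q : QT Sg U => q.1) '' {q : QT Sg U | Sg.b q.1 = a} =
      {q | Sg.b q = a ∧ Sg.a q ∈ U} := by
    ext q
    constructor
    · rintro ⟨q, hq, rfl⟩
      exact ⟨hq, q.2.1⟩
    · rintro ⟨h1, h2⟩
      exact ⟨⟨q, h2, h1 ▸ ha⟩, h1, rfl⟩
  have i1 : Set.InjOn bs {p : PT Sg U | ph p = a} := fun p _ p' _ h => bs_inj h
  have i2 : Set.InjOn (fun q : QT Sg U => q.1) {q : QT Sg U | Sg.a q.1 = a} :=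
    fun q _ q' _ h => Subtype.ext h
  have i3 : Set.InjOn (fun q : QT Sg U => q.1) {q : QT Sg U | Sg.b q.1 = a} :=
    fun q _ q' _ h => Subtype.ext h
  rw [← Set.ncard_image_of_injOn i1, ← Set.ncard_image_of_injOn i2,
    ← Set.ncard_image_of_injOn i3, e3, e4, e5, e1, e2,
    Set.ncard_union_eq d1 (Set.toFinite _) (Set.toFinite _),
    Set.ncard_union_eq d2 (Set.toFinite _) (Set.toFinite _),
    Set.ncard_union_eq d3 (Set.toFinite _) (Set.toFinite _)]
  omega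

end Pool.Agent.Helper7.HH
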